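import Pool.Agent.helper960_jp.Main

/-!
# A dichotomy for the Jacobi-Perron expansion in totally real cubic fields

Either the expansion of `(1, y, z)` is eventually periodic, or the two nontrivial conjugates of
every nonzero integer linear form in the complete quotients become asymptotically equal.
-/

set_option autoImplicit false

open Filter Topology Pool.Agent.helper960_jp

/-- Let `K` be a cubic field with three distinct real embeddings `σ, τ₁, τ₂`, let `y, z` in `K`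
be as in the problem, and let `(Y k, Z k)` be the `K`-valued Jacobi-Perron orbit of `(y, z)`, the
integer parts being taken in `σ`.  Write `L k = c₀ + c₁ * Y k + c₂ * Z k`. -/
theorem Pool.Agent.Results.MP_d07120_nt.ConjugateDichotomy.result
    (K : Type) [Field K] [NumberField K] (hdeg : Module.finrank ℚ K = 3)
    (σ τ₁ τ₂ : K →+* ℝ) (h1 : σ ≠ τ₁) (h2 : σ ≠ τ₂) (h12 : τ₁ ≠ τ₂)
    (y z : K) (hy0 : 0 < σ y) (hy1 : σ y < 1) (hz0 : 0 < σ z) (hz1 : σ z < 1)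
    (hli : LinearIndependent ℚ ![(1 : K), y, z]) :
    let Y : ℕ → K := fun k => ((step σ)^[k] (y, z)).1
    let Z : ℕ → K := fun k => ((step σ)^[k] (y, z)).2
    let EvPer : Prop := ∃ N p : ℕ, 0 < p ∧ ∀ n : ℕ, N ≤ n →
          (fun q : ℝ × ℝ => (⌊q.2 / q.1⌋, ⌊1 / q.1⌋))
              ((fun q : ℝ × ℝ => (Int.fract (q.2 / q.1), Int.fract (1 / q.1)))^[n + p] (σ y, σ z))
            = (fun q : ℝ × ℝ => (⌊q.2 / q.1⌋, ⌊1 / q.1⌋))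
              ((fun q : ℝ × ℝ => (Int.fract (q.2 / q.1), Int.fract (1 / q.1)))^[n] (σ y, σ z))
    (¬ EvPer → ∀ c₀ c₁ c₂ : ℤ, ¬ (c₀ = 0 ∧ c₁ = 0 ∧ c₂ = 0) →
      Tendsto (fun k => τ₁ (c₀ + c₁ * Y k + c₂ * Z k) / τ₂ (c₀ + c₁ * Y k + c₂ * Z k))
        atTop (𝓝 1)) ∧
    (EvPer → ∀ c₀ c₁ c₂ : ℤ, ¬ (c₁ = 0 ∧ c₂ = 0) →
      ¬ Tendsto (fun k => τ₁ (c₀ + c₁ * Y k + c₂ * Z k) / τ₂ (c₀ + c₁ * Y k + c₂ * Z k))
        atTop (𝓝 1)) ∧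
    (EvPer ↔ ∃ c₀ c₁ c₂ : ℤ, ∃ᶠ k in atTop,
      τ₁ (c₀ + c₁ * Y k + c₂ * Z k) * τ₂ (c₀ + c₁ * Y k + c₂ * Z k) < 0) := by
  intro Y Z EvPer
  have hc : Conj σ τ₁ τ₂ := ⟨hdeg, h1, h2, h12⟩
  have hadm : Adm σ (y, z) := ⟨hy0, hy1, hz0, hz1, ind_of_linearIndependent hli⟩
  have hper : EvPer ↔ KPer σ (y, z) := hadm.digPer_iff
  have hlim : ¬ EvPer → ∀ c₀ c₁ c₂ : ℤ, ¬ (c₀ = 0 ∧ c₁ = 0 ∧ c₂ = 0) →
      Tendsto (fun k => τ₁ (c₀ + c₁ * Y k + c₂ * Z k) / τ₂ (c₀ + c₁ * Y k + c₂ * Z k))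
        atTop (𝓝 1) :=
    fun hnp c₀ c₁ c₂ hcc => hc.tendsto_one hadm (fun h => hnp (hper.2 h)) hcc
  refine ⟨hlim, fun hp c₀ c₁ c₂ hcc => hc.not_tendsto hadm (hper.1 hp) hcc, ?_, ?_⟩
  · intro hp
    exact hc.exists_sep hadm (hper.1 hp)
  · rintro ⟨c₀, c₁, c₂, hfreq⟩
    by_contra hnp
    have hcc : ¬ (c₀ = 0 ∧ c₁ = 0 ∧ c₂ = 0) := by
      rintro ⟨e0, e1, e2⟩
      obtain ⟨k, hk⟩ := hfreq.exists
      rw [e0, e1, e2] at hk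
      simp at hk
    have ht := hlim hnp c₀ c₁ c₂ hcc
    have hev : ∀ᶠ k in atTop,
        0 < τ₁ (c₀ + c₁ * Y k + c₂ * Z k) / τ₂ (c₀ + c₁ * Y k + c₂ * Z k) :=
      ht.eventually (lt_mem_nhds one_pos)
    obtain ⟨k, hk1, hk2⟩ := (hfreq.and_eventually hev).exists
    rw [← not_le] at hk1
    apply hk1
    rcases div_pos_iff.1 hk2 with ⟨ha, hb⟩ | ⟨ha, hb⟩
    · exact (mul_pos ha hb).le
    · exact (mul_pos_of_neg_of_neg ha hb).le
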