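import Pool.Agent.helper960_jp.Rate

/-!
# Growth rates decide the periodicity of the Jacobi-Perron expansion

For `g k = Y 0 * ... * Y (k-1)` the normalised difference of the logarithms of the two nontrivial
conjugates of `g k` always converges, and the limit is nonzero exactly for the eventually periodic
expansions.
-/

set_option autoImplicit false

open Filter Topology Pool.Agent.helper960_jp

/-- Let `K` be a cubic field with three distinct real embeddings `σ, τ₁, τ₂`, let `y, z` in `K`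
be as in the problem, and let `g k` be the product of the first `k` first coordinates of the
`K`-valued Jacobi-Perron orbit of `(y, z)`. -/
theorem Pool.Agent.Results.MP_d07120_nt.GrowthRateCriterion.result
    (K : Type) [Field K] [NumberField K] (hdeg : Module.finrank ℚ K = 3)
    (σ τ₁ τ₂ : K →+* ℝ) (h1 : σ ≠ τ₁) (h2 : σ ≠ τ₂) (h12 : τ₁ ≠ τ₂)
    (y z : K) (hy0 : 0 < σ y) (hy1 : σ y < 1) (hz0 : 0 < σ z) (hz1 : σ z < 1)
    (hli : LinearIndependent ℚ ![(1 : K), y, z]) :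
    let g : ℕ → K := fun k => ∏ j ∈ Finset.range k, ((step σ)^[j] (y, z)).1
    let EvPer : Prop := ∃ N p : ℕ, 0 < p ∧ ∀ n : ℕ, N ≤ n →
          (fun q : ℝ × ℝ => (⌊q.2 / q.1⌋, ⌊1 / q.1⌋))
              ((fun q : ℝ × ℝ => (Int.fract (q.2 / q.1), Int.fract (1 / q.1)))^[n + p] (σ y, σ z))
            = (fun q : ℝ × ℝ => (⌊q.2 / q.1⌋, ⌊1 / q.1⌋))
              ((fun q : ℝ × ℝ => (Int.fract (q.2 / q.1), Int.fract (1 / q.1)))^[n] (σ y, σ z))
    ∃ ρ : ℝ,
      Tendsto (fun k => (Real.log |τ₁ (g k)| - Real.log |τ₂ (g k)|) / (- Real.log (σ (g k))))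
        atTop (𝓝 ρ) ∧ (EvPer ↔ ρ ≠ 0) := by
  intro g EvPer
  have hc : Conj σ τ₁ τ₂ := ⟨hdeg, h1, h2, h12⟩
  have hadm : Adm σ (y, z) := ⟨hy0, hy1, hz0, hz1, ind_of_linearIndependent hli⟩
  have hper : EvPer ↔ KPer σ (y, z) := hadm.digPer_iff
  by_cases hp : KPer σ (y, z)
  · obtain ⟨ρ, hρ, ht⟩ := hc.tendsto_ne_zero hadm hp
    exact ⟨ρ, ht, ⟨fun _ => hρ, fun _ => hper.2 hp⟩⟩
  · exact ⟨0, hc.tendsto_zero hadm hp, ⟨fun h => absurd (hper.1 h) hp, fun h => absurd rfl h⟩⟩
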