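import Pool.Agent.helper960_jp.Cyc

/-!
# Only finitely many unbalanced cycles

In a totally real cubic field, for modules of bounded discriminant, there are only finitely many
purely periodic Jacobi-Perron expansions whose period product `Λ` satisfies
`|log |τ₁ Λ| - log |τ₂ Λ|| ≥ δ * (period length)`.
-/

set_option autoImplicit false

open Pool.Agent.helper960_jp

theorem Pool.Agent.Results.MP_d07120_nt.UnbalancedCyclesFinite.result
    (K : Type) [Field K] [NumberField K] (hdeg : Module.finrank ℚ K = 3)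
    (σ τ₁ τ₂ : K →+* ℝ) (h1 : σ ≠ τ₁) (h2 : σ ≠ τ₂) (h12 : τ₁ ≠ τ₂) (D δ : ℝ) (hδ : 0 < δ) :
    {q : K × K |
      (0 < σ q.1 ∧ σ q.1 < 1 ∧ 0 < σ q.2 ∧ σ q.2 < 1 ∧
        LinearIndependent ℚ ![(1 : K), q.1, q.2]) ∧
      (∃ p : ℕ, 0 < p ∧ (step σ)^[p] q = q ∧
        δ * p ≤ abs (Real.log |τ₁ (∏ j ∈ Finset.range p, ((step σ)^[j] q).1)| -
          Real.log |τ₂ (∏ j ∈ Finset.range p, ((step σ)^[j] q).1)|)) ∧
      (∃ G : K, G ≠ 0 ∧ IsIntegral ℤ G ∧ IsIntegral ℤ (G * q.1) ∧ IsIntegral ℤ (G * q.2) ∧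
        ((Algebra.discr ℚ ![G, G * q.1, G * q.2] : ℚ) : ℝ) ≤ D)}.Finite := by
  have hc : Conj σ τ₁ τ₂ := ⟨hdeg, h1, h2, h12⟩
  refine (hc.finite_cycles D δ hδ).subset ?_
  rintro q ⟨⟨hy0, hy1, hz0, hz1, hli⟩, hper, hG⟩
  exact ⟨⟨hy0, hy1, hz0, hz1, ind_of_linearIndependent hli⟩, hper, hG⟩
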